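import Pool.Agent.helper87.FM.Spec

/-!
# Row `fm:SKL`
-/

set_option autoImplicit false

namespace Pool.Agent.FM

open Polynomial Matrix Pool.Agent.helper42.NS Pool.Agent.FS

/-- one eigenvector -/
theorem SKL_one (a m k p' : ℕ) (P : Pt) (H : Matrix (Fin m) (Fin m) ℤ) (hp' : p'.Prime) (hab : Above p' P)
    (hple : p' ≤ qP P) (hR2 : R2 a H) (hq : qP P < 2 ^ a) (y : Fin m → KP P)
    (hy : y ∈ EigK (KP P) (lamP P) H) (hy0 : y ≠ 0) :
    (Set.ncard {B : Fin k → Fin m → Bool | ∀ i, dotb (B i) y = 0} : ℝ) ≤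
      2 ^ (m * k) * (1 / (qP P : ℝ) + 1 / 2 ^ (2 ^ a)) ^ k := by
  classical
  have : P.asIdeal.IsMaximal := P.isMaximal
  let _ : Field (KP P) := Ideal.Quotient.field P.asIdeal
  have hp2 := hp'.two_le
  have h1 := T_LCA a m p' P H (Submodule.span (KP P) {y}) hp' hab
    (lt_of_le_of_lt hple (hq.trans_le (Nat.pow_le_pow_right (by norm_num) (by omega))))
    (by
      refine hq.le.trans ?_
      refine (Nat.pow_le_pow_left hp2 a).trans ?_
      exact Nat.pow_le_pow_right (by omega) (by omega)) hR2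
    ((Submodule.span_singleton_le_iff_mem _ _).2 hy)
  have h2 : Module.finrank (KP P) (Submodule.span (KP P) {y}) = 1 := finrank_span_singleton hy0
  rw [h2, pow_one] at h1
  have h3 : {b : Fin m → Bool | dotb b y = 0} ⊆
      {b : Fin m → Bool | ∀ u ∈ Submodule.span (KP P) {y}, dotb b u = 0} := by
    intro b hb u hu
    obtain ⟨c, rfl⟩ := Submodule.mem_span_singleton.1 hu
    have h4 : dotb b (c • y) = c * dotb b y := by
      unfold dotb
      rw [Finset.mul_sum]
      refine Finset.sum_congr rfl fun j _ => ?_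
      split_ifs
      · rfl
      · rw [mul_zero]
    have h5 : dotb b y = 0 := hb
    rw [h4, h5, mul_zero]
  have h4 : (Set.ncard {b : Fin m → Bool | dotb b y = 0} : ℝ) ≤
      2 ^ m * (1 / (qP P : ℝ) + 1 / 2 ^ (2 ^ a)) :=
    le_trans (by exact_mod_cast Set.ncard_le_ncard h3 (Set.toFinite _)) h1
  rw [GE2_pi]
  push_cast
  calc (Set.ncard {b : Fin m → Bool | dotb b y = 0} : ℝ) ^ k
      ≤ (2 ^ m * (1 / (qP P : ℝ) + 1 / 2 ^ (2 ^ a))) ^ k :=
        pow_le_pow_left₀ (by positivity) h4 _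
    _ = 2 ^ (m * k) * (1 / (qP P : ℝ) + 1 / 2 ^ (2 ^ a)) ^ k := by
        rw [mul_pow, ← pow_mul]

theorem SKL : SKL_stmt := by
  classical
  intro a m k P H ha hR2 hq
  have : P.asIdeal.IsMaximal := P.isMaximal
  let _ : Field (KP P) := Ideal.Quotient.field P.asIdeal
  obtain ⟨hfin, p', hp', hab, -, d, hd, hqp⟩ := FIN P
  have hp2 := hp'.two_le
  have hple : p' ≤ qP P := by
    rw [hqp]
    exact Nat.le_self_pow (by omega) p'
  have hq2 : 2 ≤ qP P := hp2.trans hple
  set E : Submodule (KP P) (Fin m → KP P) := EigK (KP P) (lamP P) H with hE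
  have hfE : Finite E := inferInstance
  let _ : Fintype E := Fintype.ofFinite E
  have hcardE : Fintype.card E = qP P ^ crk P H := by
    rw [← Nat.card_eq_fintype_card, Module.natCard_eq_pow_finrank (K := KP P)]
    rfl
  have hun : (Finset.univ.filter fun B : Fin k → Fin m → Bool => Bad P H B) ⊆
      (Finset.univ.filter fun y : E => y ≠ 0).biUnion fun y =>
        Finset.univ.filter fun B : Fin k → Fin m → Bool => ∀ i, dotb (B i) (y : Fin m → KP P) = 0 := by
    intro B hB
    obtain ⟨u, hu, hu0, hB'⟩ := (Finset.mem_filter.1 hB).2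
    refine Finset.mem_biUnion.2 ⟨⟨u, hu⟩, Finset.mem_filter.2 ⟨Finset.mem_univ _, ?_⟩,
      Finset.mem_filter.2 ⟨Finset.mem_univ _, hB'⟩⟩
    intro h
    exact hu0 (congrArg Subtype.val h)
  set c : ℝ := 2 ^ (m * k) * (1 / (qP P : ℝ) + 1 / 2 ^ (2 ^ a)) ^ k with hc
  have hc0 : 0 ≤ c := by positivity
  rw [GE2_ncard]
  calc (((Finset.univ.filter fun B : Fin k → Fin m → Bool => Bad P H B).card : ℕ) : ℝ)
      ≤ ((∑ y ∈ Finset.univ.filter (fun y : E => y ≠ 0),
          (Finset.univ.filter fun B : Fin k → Fin m → Bool =>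
            ∀ i, dotb (B i) (y : Fin m → KP P) = 0).card : ℕ) : ℝ) := by
        exact_mod_cast (Finset.card_le_card hun).trans Finset.card_biUnion_le
    _ = ∑ y ∈ Finset.univ.filter (fun y : E => y ≠ 0),
          (((Finset.univ.filter fun B : Fin k → Fin m → Bool =>
            ∀ i, dotb (B i) (y : Fin m → KP P) = 0).card : ℕ) : ℝ) := by push_cast; rfl
    _ ≤ ∑ y ∈ Finset.univ.filter (fun y : E => y ≠ 0), c := by
        refine Finset.sum_le_sum fun y hy => ?_
        have h1 := SKL_one a m k p' P H hp' hab hple hR2 hq y y.2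
          (fun h => (Finset.mem_filter.1 hy).2 (Subtype.ext h))
        rwa [GE2_ncard] at h1
    _ = ((Finset.univ.filter (fun y : E => y ≠ 0)).card : ℝ) * c := by rw [Finset.sum_const, nsmul_eq_mul]
    _ ≤ (qP P : ℝ) ^ crk P H * c := by
        apply mul_le_mul_of_nonneg_right _ hc0
        have h1 : (Finset.univ.filter (fun y : E => y ≠ 0)).card ≤ qP P ^ crk P H :=
          (Finset.card_filter_le _ _).trans (by rw [Finset.card_univ]; exact hcardE.le)
        exact_mod_cast h1
    _ = 2 ^ (m * k) * ((qP P : ℝ) ^ crk P H * (1 / (qP P : ℝ) + 1 / 2 ^ (2 ^ a)) ^ k) := by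
        rw [hc]
        ring

end Pool.Agent.FM
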